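import Mathlib
import Pool.Agent.H759R2.Kad.Props7

open scoped ComplexOrder InnerProductSpace ComplexConjugate
open Finset

noncomputable section

namespace H759R2.Kad

universe u v

theorem tup_mul_pr {F : Type u} [CStarAlgebra F] {n : ℕ} {W : Fin n → F} {P : F} (h : Tup W P)
    (a : Fin n) : W a * P = W a := by
  have h1 : star (W a) * W a = P := by
    have := h.rel a a
    rwa [if_pos rfl] at this
  have h2 : star P = P := h.pr.1
  have h3 : P * P = P := h.pr.2
  have h4 : star (W a * P - W a) * (W a * P - W a) = 0 := by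
    rw [star_sub, star_mul, h2]
    have e1 : (P * star (W a) - star (W a)) * (W a * P - W a) =
        P * (star (W a) * W a) * P - P * (star (W a) * W a) - star (W a) * W a * P +
          star (W a) * W a := by noncomm_ring
    rw [e1, h1, h3, h3]
    noncomm_ring
  have h5 := (CStarRing.star_mul_self_eq_zero_iff _).1 h4
  exact sub_eq_zero.1 h5

theorem prove7_ftup (h : Q_diag.{u}) : Q_ftup.{u} := by
  intro F _ R s hR k E hE horth hs hS
  obtain ⟨n, T, P, hT, hP0, hmin, hTR⟩ := hR
  subst hTR
  have h1 : ∀ i, ∃ (m : ℕ) (W : Fin m → F), Tup W P ∧ ∑ a, W a * star (W a) = E i := fun i =>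
    h F n T P hT hP0 hmin (E i) (hE i) (hS i)
  choose m W hW hWs using h1
  have hEW : ∀ i a, E i * W i a = W i a := by
    intro i a
    rw [← hWs i, Finset.sum_mul]
    have h2 : ∀ b ∈ (Finset.univ : Finset (Fin (m i))), W i b * star (W i b) * W i a =
        if b = a then W i a else 0 := by
      intro b _
      rw [mul_assoc, (hW i).rel b a]
      by_cases hab : b = a
      · rw [if_pos hab, if_pos hab, tup_mul_pr (hW i), hab]
      · rw [if_neg hab, if_neg hab, mul_zero]
    rw [Finset.sum_congr rfl h2, Finset.sum_ite_eq' Finset.univ a (fun _ => W i a)]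
    simp
  have hcross : ∀ i j, i ≠ j → ∀ a b, star (W i a) * W j b = 0 := by
    intro i j hij a b
    have h3 : star (W i a) = star (W i a) * E i := by
      conv_lhs => rw [← hEW i a]
      rw [star_mul, (hE i).1]
    rw [h3, ← hEW j b, mul_assoc, ← mul_assoc (E i), horth i j hij, zero_mul, mul_zero]
  let e : (Σ i : Fin k, Fin (m i)) ≃ Fin (∑ i, m i) := finSigmaFinEquiv
  let g : (Σ i : Fin k, Fin (m i)) → F := fun y => W y.1 y.2
  refine ⟨∑ i, m i, fun x => g (e.symm x), P, ⟨hT.pr, ?_⟩, hP0, hmin, ?_⟩
  · intro x y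
    obtain ⟨⟨i, a⟩, rfl⟩ := e.surjective x
    obtain ⟨⟨j, b⟩, rfl⟩ := e.surjective y
    simp only [Equiv.symm_apply_apply, EmbeddingLike.apply_eq_iff_eq]
    by_cases hij : i = j
    · subst hij
      have h5 : star (g ⟨i, a⟩) * g ⟨i, b⟩ = if a = b then P else 0 := (hW i).rel a b
      rw [h5]
      by_cases hab : a = b
      · subst hab
        simp
      · rw [if_neg hab, if_neg]
        intro h4
        apply hab
        simpa using h4
    · have h5 : star (g ⟨i, a⟩) * g ⟨j, b⟩ = 0 := hcross i j hij a b
      rw [h5, if_neg]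
      intro h4
      exact hij (congrArg Sigma.fst h4)
  · rw [← hs, ← Equiv.sum_comp e (fun x => g (e.symm x) * star (g (e.symm x)))]
    simp only [Equiv.symm_apply_apply]
    rw [← Finset.univ_sigma_univ, Finset.sum_sigma]
    refine Finset.sum_congr rfl fun i _ => ?_
    exact hWs i

end H759R2.Kad
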